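import Mathlib
import Pool.Agent.RNB.Defs
import Pool.Agent.H87.RN.Price

set_option autoImplicit false

/-!
Project RN, plan C, module B5: count and end (S11118).
-/

namespace H88RNC

open Finset

/-- exponential beats polynomial -/
theorem exp_beats_poly (M N : ℕ) : ∃ K : ℕ, 1 ≤ K ∧ M * K ^ N < 2 ^ K := by
  have h : Filter.Tendsto (fun n : ℕ => (n : ℝ) ^ N / (2:ℝ) ^ n) Filter.atTop (nhds 0) :=
    tendsto_pow_const_div_const_pow_of_one_lt N (by norm_num)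
  have h2 : ∀ᶠ n : ℕ in Filter.atTop, (n : ℝ) ^ N / (2:ℝ) ^ n < 1 / ((M:ℝ) + 1) := by
    have hpos : (0:ℝ) < 1 / ((M:ℝ) + 1) := by positivity
    exact h.eventually_lt_const hpos
  obtain ⟨K0, hK0⟩ := Filter.eventually_atTop.1 h2
  refine ⟨K0 + 1, by omega, ?_⟩
  have h3 := hK0 (K0 + 1) (by omega)
  have hp : (0:ℝ) < (2:ℝ) ^ (K0 + 1) := by positivity
  have hM : (0:ℝ) < (M:ℝ) + 1 := by positivity
  rw [div_lt_div_iff₀ hp hM] at h3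
  have h4 : (M:ℝ) * ((K0 + 1 : ℕ):ℝ) ^ N < (2:ℝ) ^ (K0 + 1) := by
    have : (0:ℝ) ≤ ((K0 + 1 : ℕ):ℝ) ^ N := by positivity
    nlinarith
  exact_mod_cast h4

/-- the final arithmetic: `g = 2 d + 1` generations beat the exponent `d` -/
theorem arith (C₀ : ℝ) (A N d : ℕ) : ∃ K : ℕ, 1 ≤ K ∧
    C₀ * (((A * K ^ N * 4 ^ K : ℕ) : ℝ) + 1) ^ d < (2 : ℝ) ^ ((2 * d + 1) * K) := by
  obtain ⟨c, hc⟩ := exists_nat_ge (max C₀ 0)
  obtain ⟨K, hK1, hK⟩ := exp_beats_poly (c * (A + 1) ^ d) (N * d)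
  refine ⟨K, hK1, ?_⟩
  have hKr : (1 : ℝ) ≤ (K : ℝ) := by exact_mod_cast hK1
  have h1 : (((A * K ^ N * 4 ^ K : ℕ) : ℝ) + 1) ≤ ((A : ℝ) + 1) * (K : ℝ) ^ N * 4 ^ K := by
    push_cast
    have h4 : (1 : ℝ) ≤ (K : ℝ) ^ N * 4 ^ K := by
      have a1 : (1 : ℝ) ≤ (K : ℝ) ^ N := one_le_pow₀ hKr
      have a2 : (1 : ℝ) ≤ (4 : ℝ) ^ K := one_le_pow₀ (by norm_num)
      nlinarith
    nlinarith
  have h2 : C₀ ≤ (c : ℝ) := le_trans (le_max_left _ _) hc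
  have h0 : (0 : ℝ) ≤ (c : ℝ) := Nat.cast_nonneg c
  have h3 : (c : ℝ) * ((A : ℝ) + 1) ^ d * (K : ℝ) ^ (N * d) < (2 : ℝ) ^ K := by
    exact_mod_cast hK
  calc C₀ * (((A * K ^ N * 4 ^ K : ℕ) : ℝ) + 1) ^ d
      ≤ (c : ℝ) * (((A : ℝ) + 1) * (K : ℝ) ^ N * 4 ^ K) ^ d := by
        apply mul_le_mul h2 _ (by positivity) h0
        exact pow_le_pow_left₀ (by positivity) h1 d
    _ = ((c : ℝ) * ((A : ℝ) + 1) ^ d * (K : ℝ) ^ (N * d)) * (2 : ℝ) ^ (2 * d * K) := by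
        rw [mul_pow, mul_pow, ← pow_mul, ← pow_mul]
        have : (4 : ℝ) ^ (K * d) = (2 : ℝ) ^ (2 * d * K) := by
          rw [show (4 : ℝ) = 2 ^ 2 by norm_num, ← pow_mul]; congr 1; ring
        rw [this]; ring
    _ < (2 : ℝ) ^ K * (2 : ℝ) ^ (2 * d * K) := by
        apply mul_lt_mul_of_pos_right h3 (by positivity)
    _ = (2 : ℝ) ^ ((2 * d + 1) * K) := by
        rw [← pow_add]; congr 1; ring

/-- the end of plan C from its two halves -/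
theorem final_of
    (H3 : ∀ g : ℕ, 1 ≤ g → ∃ A e : ℕ, ∀ K : ℕ, 1 ≤ K → ∃ N : RNB.GridNet (g * K),
      N.M ≤ A * K ^ e ∧ N.Q ≤ 2 ^ (K + 1) ∧ N.W ≤ A * K ^ e * 2 ^ K)
    (H12 : ∀ (D : ℕ) (N : RNB.GridNet D), ∃ (ι κ : Type) (_ : Fintype ι) (_ : Fintype κ),
      Nonempty (H87RN.Inst ι κ (Fin D → Bool)) ∧ Fintype.card ι ≤ Fintype.card κ ∧
        Fintype.card κ ≤ (2 * N.W + 1) * N.M * 2 * N.Q + (2 * N.W + 1)) :
    ¬ (∃ C : ℝ, ∃ d₁ d₂ : ℕ, ∀ m n : ℕ, m ≤ n →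
      ∀ (A : Fin m → EuclideanSpace ℝ (Fin 2)) (B : Fin n → EuclideanSpace ℝ (Fin 2)),
        ((({π : Fin m ↪ Fin n | ∃ t : EuclideanSpace ℝ (Fin 2),
            ∀ σ : Fin m ↪ Fin n, σ ≠ π →
              ∑ i, ‖A i - (B (π i) + t)‖ ^ 2 < ∑ i, ‖A i - (B (σ i) + t)‖ ^ 2}
            : Set (Fin m ↪ Fin n)).ncard : ℕ) : ℝ)
          ≤ C * ((m : ℝ) + 1) ^ d₁ * ((n : ℝ) + 1) ^ d₂) := by
  refine H87RN.not_poly_of_inst fun C d => ?_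
  obtain ⟨A, e, hA⟩ := H3 (2 * d + 1) (by omega)
  set A' := (2 * A + 1) * A * 4 + (2 * A + 1) with hA'
  obtain ⟨K, hK, hlt⟩ := arith (max C 0) A' (2 * e) d
  obtain ⟨N, hM, hQ, hW⟩ := hA K hK
  obtain ⟨ι, κ, i1, i2, hI, hle, hcard⟩ := H12 _ N
  refine ⟨ι, κ, Fin ((2 * d + 1) * K) → Bool, i1, i2, inferInstance, hI, hle, ?_⟩
  have hKe : 1 ≤ K ^ e := Nat.one_le_pow _ _ hK
  have h2K : 1 ≤ 2 ^ K := Nat.one_le_two_pow
  have hW' : 2 * N.W + 1 ≤ (2 * A + 1) * (K ^ e * 2 ^ K) := by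
    have : 1 ≤ K ^ e * 2 ^ K := Nat.one_le_iff_ne_zero.mpr (by positivity)
    nlinarith
  have hb : Fintype.card κ ≤ A' * K ^ (2 * e) * 4 ^ K := by
    have e1 : (2 * N.W + 1) * N.M * 2 * N.Q ≤
        (2 * A + 1) * (K ^ e * 2 ^ K) * (A * K ^ e) * 2 * 2 ^ (K + 1) := by
      gcongr
    have e2 : (2 * A + 1) * (K ^ e * 2 ^ K) * (A * K ^ e) * 2 * 2 ^ (K + 1) =
        (2 * A + 1) * A * 4 * (K ^ (2 * e) * 4 ^ K) := by
      have : (4 : ℕ) ^ K = 2 ^ K * 2 ^ K := by rw [← mul_pow]; norm_num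
      rw [this, pow_succ, two_mul e, pow_add]; ring
    have e3 : (2 * A + 1) * (K ^ e * 2 ^ K) ≤ (2 * A + 1) * (K ^ (2 * e) * 4 ^ K) := by
      have : (4 : ℕ) ^ K = 2 ^ K * 2 ^ K := by rw [← mul_pow]; norm_num
      rw [this, two_mul e, pow_add]
      have a1 : K ^ e ≤ K ^ e * K ^ e := Nat.le_mul_of_pos_left _ hKe
      have a2 : 2 ^ K ≤ 2 ^ K * 2 ^ K := Nat.le_mul_of_pos_left _ h2K
      gcongr
    calc Fintype.card κ ≤ _ := hcard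
      _ ≤ (2 * A + 1) * A * 4 * (K ^ (2 * e) * 4 ^ K) + (2 * A + 1) * (K ^ (2 * e) * 4 ^ K) :=
          Nat.add_le_add (e2 ▸ e1) (hW'.trans e3)
      _ = A' * K ^ (2 * e) * 4 ^ K := by rw [hA']; ring
  have hq' : (Fintype.card κ : ℝ) ≤ ((A' * K ^ (2 * e) * 4 ^ K : ℕ) : ℝ) := by
    exact_mod_cast hb
  have hτ : (Fintype.card (Fin ((2 * d + 1) * K) → Bool) : ℝ) = (2 : ℝ) ^ ((2 * d + 1) * K) := by
    simp
  rw [hτ]
  calc C * ((Fintype.card κ : ℝ) + 1) ^ d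
      ≤ max C 0 * (((A' * K ^ (2 * e) * 4 ^ K : ℕ) : ℝ) + 1) ^ d := by
        gcongr
        exact le_max_left _ _
    _ < (2 : ℝ) ^ ((2 * d + 1) * K) := hlt

/-- the recursion `H (i+1) = σ H i + r` -/
def Hrec (σ r : ℕ) : ℕ → ℕ
  | 0 => 0
  | i + 1 => σ * Hrec σ r i + r

theorem Hrec_le (σ r i : ℕ) : Hrec σ r i ≤ i * (σ + 1) ^ i * r := by
  induction i with
  | zero => simp [Hrec]
  | succ i ih =>
    rw [Hrec]
    have h1 : 1 ≤ (σ + 1) ^ i := Nat.one_le_pow _ _ (by omega)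
    calc σ * Hrec σ r i + r ≤ σ * (i * (σ + 1) ^ i * r) + r := by gcongr
      _ ≤ (σ + 1) * (i * (σ + 1) ^ i * r) + (σ + 1) * (σ + 1) ^ i * r := by
          have : r ≤ (σ + 1) * (σ + 1) ^ i * r := by
            apply Nat.le_mul_of_pos_left; positivity
          have h2 : σ * (i * (σ + 1) ^ i * r) ≤ (σ + 1) * (i * (σ + 1) ^ i * r) :=
            Nat.mul_le_mul_right _ (by omega)
          omega
      _ = (i + 1) * (σ + 1) ^ (i + 1) * r := by ring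

end H88RNC
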