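import Mathlib
import Pool.Agent.H88.RNC.Fin

set_option autoImplicit false

namespace H88RNC

/-- a function of `K` bounded by `A * K^e` -/
def Poly (f : ℕ → ℕ) : Prop := ∃ A e : ℕ, ∀ K : ℕ, 1 ≤ K → f K ≤ A * K ^ e

/-- a function of `K` bounded by `A * K^e * 2^K` -/
def PolyTwo (f : ℕ → ℕ) : Prop := ∃ A e : ℕ, ∀ K : ℕ, 1 ≤ K → f K ≤ A * K ^ e * 2 ^ K

theorem Poly.const (c : ℕ) : Poly fun _ => c := ⟨c, 0, fun K _ => by simp⟩

theorem Poly.id : Poly fun K => K := ⟨1, 1, fun K _ => by simp⟩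

theorem Poly.mono {f f' : ℕ → ℕ} (h : Poly f) (h' : ∀ K, 1 ≤ K → f' K ≤ f K) : Poly f' := by
  obtain ⟨A, e, hA⟩ := h
  exact ⟨A, e, fun K hK => (h' K hK).trans (hA K hK)⟩

theorem PolyTwo.mono {f f' : ℕ → ℕ} (h : PolyTwo f) (h' : ∀ K, 1 ≤ K → f' K ≤ f K) :
    PolyTwo f' := by
  obtain ⟨A, e, hA⟩ := h
  exact ⟨A, e, fun K hK => (h' K hK).trans (hA K hK)⟩

theorem Poly.add {f f' : ℕ → ℕ} (h : Poly f) (h' : Poly f') : Poly fun K => f K + f' K := by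
  obtain ⟨A, e, hA⟩ := h
  obtain ⟨A', e', hA'⟩ := h'
  refine ⟨A + A', e + e', fun K hK => ?_⟩
  have h1 : K ^ e ≤ K ^ (e + e') := Nat.pow_le_pow_right hK (by omega)
  have h2 : K ^ e' ≤ K ^ (e + e') := Nat.pow_le_pow_right hK (by omega)
  calc f K + f' K ≤ A * K ^ e + A' * K ^ e' := Nat.add_le_add (hA K hK) (hA' K hK)
    _ ≤ A * K ^ (e + e') + A' * K ^ (e + e') := by gcongr
    _ = (A + A') * K ^ (e + e') := by ring

theorem Poly.mul {f f' : ℕ → ℕ} (h : Poly f) (h' : Poly f') : Poly fun K => f K * f' K := by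
  obtain ⟨A, e, hA⟩ := h
  obtain ⟨A', e', hA'⟩ := h'
  refine ⟨A * A', e + e', fun K hK => ?_⟩
  calc f K * f' K ≤ (A * K ^ e) * (A' * K ^ e') := Nat.mul_le_mul (hA K hK) (hA' K hK)
    _ = A * A' * K ^ (e + e') := by rw [pow_add]; ring

theorem Poly.pow {f : ℕ → ℕ} (h : Poly f) (n : ℕ) : Poly fun K => f K ^ n := by
  induction n with
  | zero => simpa using Poly.const 1
  | succ n ih => simpa [pow_succ] using ih.mul h

theorem PolyTwo.two : PolyTwo fun K => 2 ^ K := ⟨1, 0, fun K _ => by simp⟩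

theorem Poly.toTwo {f : ℕ → ℕ} (h : Poly f) : PolyTwo f := by
  obtain ⟨A, e, hA⟩ := h
  exact ⟨A, e, fun K hK => (hA K hK).trans (Nat.le_mul_of_pos_right _ (by positivity))⟩

theorem PolyTwo.add {f f' : ℕ → ℕ} (h : PolyTwo f) (h' : PolyTwo f') :
    PolyTwo fun K => f K + f' K := by
  obtain ⟨A, e, hA⟩ := h
  obtain ⟨A', e', hA'⟩ := h'
  refine ⟨A + A', e + e', fun K hK => ?_⟩
  have h1 : K ^ e ≤ K ^ (e + e') := Nat.pow_le_pow_right hK (by omega)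
  have h2 : K ^ e' ≤ K ^ (e + e') := Nat.pow_le_pow_right hK (by omega)
  calc f K + f' K ≤ A * K ^ e * 2 ^ K + A' * K ^ e' * 2 ^ K :=
        Nat.add_le_add (hA K hK) (hA' K hK)
    _ ≤ A * K ^ (e + e') * 2 ^ K + A' * K ^ (e + e') * 2 ^ K := by gcongr
    _ = (A + A') * K ^ (e + e') * 2 ^ K := by ring

theorem Poly.mulTwo {f f' : ℕ → ℕ} (h : Poly f) (h' : PolyTwo f') :
    PolyTwo fun K => f K * f' K := by
  obtain ⟨A, e, hA⟩ := h
  obtain ⟨A', e', hA'⟩ := h'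
  refine ⟨A * A', e + e', fun K hK => ?_⟩
  calc f K * f' K ≤ (A * K ^ e) * (A' * K ^ e' * 2 ^ K) := Nat.mul_le_mul (hA K hK) (hA' K hK)
    _ = A * A' * K ^ (e + e') * 2 ^ K := by rw [pow_add]; ring

/-- the recursion with coefficients depending on `K` -/
theorem PolyTwo.hrec {σ r : ℕ → ℕ} (hσ : Poly σ) (hr : PolyTwo r) (g : ℕ) :
    PolyTwo fun K => Hrec (σ K) (r K) g := by
  have h1 : Poly fun K => g * (σ K + 1) ^ g :=
    (Poly.const g).mul ((hσ.add (Poly.const 1)).pow g)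
  exact (h1.mulTwo hr).mono fun K _ => Hrec_le (σ K) (r K) g

/-- the two counts of plan C: `B = 2K+1`, `M = 2 B^g`, `E = 2 K B^g 2^K`, `L = 2 (M+2)`,
`H (i+1) = (2 B^g + 1) H i + B^g + E`. -/
theorem W_poly (g a b c : ℕ) : PolyTwo fun K =>
    a * (Hrec (2 * (2 * K + 1) ^ g + 1) ((2 * K + 1) ^ g + 2 * K * (2 * K + 1) ^ g * 2 ^ K) g + b)
      * (2 * (2 * (2 * K + 1) ^ g + 2)) + c := by
  have hB : Poly fun K => (2 * K + 1) ^ g :=
    (((Poly.const 2).mul Poly.id).add (Poly.const 1)).pow g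
  have hσ : Poly fun K => 2 * (2 * K + 1) ^ g + 1 := ((Poly.const 2).mul hB).add (Poly.const 1)
  have hr : PolyTwo fun K => (2 * K + 1) ^ g + 2 * K * (2 * K + 1) ^ g * 2 ^ K :=
    hB.toTwo.add ((((Poly.const 2).mul Poly.id).mul hB).mulTwo PolyTwo.two)
  have hL : Poly fun K => a * (2 * (2 * (2 * K + 1) ^ g + 2)) :=
    (Poly.const a).mul ((Poly.const 2).mul (((Poly.const 2).mul hB).add (Poly.const 2)))
  have h1 := hL.mulTwo ((PolyTwo.hrec hσ hr g).add (Poly.const b).toTwo)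
  exact ((h1.add (Poly.const c).toTwo)).mono fun K _ => le_of_eq (by ring)

theorem M_poly (g : ℕ) : Poly fun K => 2 * (2 * K + 1) ^ g :=
  (Poly.const 2).mul ((((Poly.const 2).mul Poly.id).add (Poly.const 1)).pow g)

/-- `H3` of `final_of` from a `Poly` and a `PolyTwo` bound. -/
theorem h3_of {g : ℕ} {fM fW : ℕ → ℕ} (hM : Poly fM) (hW : PolyTwo fW)
    (h : ∀ K : ℕ, 1 ≤ K → ∃ N : RNB.GridNet (g * K),
      N.M ≤ fM K ∧ N.Q ≤ 2 ^ (K + 1) ∧ N.W ≤ fW K) :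
    ∃ A e : ℕ, ∀ K : ℕ, 1 ≤ K → ∃ N : RNB.GridNet (g * K),
      N.M ≤ A * K ^ e ∧ N.Q ≤ 2 ^ (K + 1) ∧ N.W ≤ A * K ^ e * 2 ^ K := by
  obtain ⟨A, e, hA⟩ := hM
  obtain ⟨A', e', hA'⟩ := hW
  refine ⟨A + A', e + e', fun K hK => ?_⟩
  obtain ⟨N, h1, h2, h3⟩ := h K hK
  have a1 : K ^ e ≤ K ^ (e + e') := Nat.pow_le_pow_right hK (by omega)
  have a2 : K ^ e' ≤ K ^ (e + e') := Nat.pow_le_pow_right hK (by omega)
  refine ⟨N, ?_, h2, ?_⟩
  · calc N.M ≤ A * K ^ e := h1.trans (hA K hK)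
      _ ≤ (A + A') * K ^ (e + e') := Nat.mul_le_mul (by omega) a1
  · calc N.W ≤ A' * K ^ e' * 2 ^ K := h3.trans (hA' K hK)
      _ ≤ (A + A') * K ^ (e + e') * 2 ^ K :=
        Nat.mul_le_mul (Nat.mul_le_mul (by omega) a2) le_rfl

end H88RNC
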