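import Pool.Agent.RNB.B3Defs
import Pool.Agent.H88.RNC.WBound

set_option autoImplicit false

/-!
Project RN, plan C: the sizes `W`, `M` of the explicit grid (`Pool/Agent/RNB/B3Defs.lean`)
as functions of `K` for fixed `g`, and the assembly of `H3`.
-/

namespace H88RNC

open RNB

theorem B3_Hn (g K i : ℕ) : B3.Hn g K i =
    ((Hrec (2 * (2 * K + 1) ^ g + 1) ((2 * K + 1) ^ g + 2 * K * (2 * K + 1) ^ g * 2 ^ K) i : ℕ) : ℤ)
    := by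
  induction i with
  | zero => simp [B3.Hn, Hrec]
  | succ i ih =>
    rw [B3.Hn, Hrec, ih]
    simp only [B3.sg, B3.B, B3.E, B3.M]
    push_cast
    ring

theorem B3_M (g K : ℕ) : (B3.M g K).toNat = 2 * (2 * K + 1) ^ g := by
  have : B3.M g K = ((2 * (2 * K + 1) ^ g : ℕ) : ℤ) := by
    simp only [B3.M, B3.B]; push_cast; ring
  rw [this, Int.toNat_natCast]

theorem B3_W (g K : ℕ) : (B3.W g K).toNat =
    1 * (Hrec (2 * (2 * K + 1) ^ g + 1) ((2 * K + 1) ^ g + 2 * K * (2 * K + 1) ^ g * 2 ^ K) g + 0)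
      * (2 * (2 * (2 * K + 1) ^ g + 2)) + 0 := by
  have : B3.W g K = ((1 * (Hrec (2 * (2 * K + 1) ^ g + 1)
      ((2 * K + 1) ^ g + 2 * K * (2 * K + 1) ^ g * 2 ^ K) g + 0)
      * (2 * (2 * (2 * K + 1) ^ g + 2)) + 0 : ℕ) : ℤ) := by
    rw [B3.W, B3_Hn]
    simp only [B3.L, B3.B, B3.M]
    push_cast
    ring
  rw [this, Int.toNat_natCast]

/-- `H3` of `final_of` from the explicit nets. -/
theorem h3_of_B3 (H : ∀ g K : ℕ, 1 ≤ g → 1 ≤ K → ∃ N : RNB.GridNet (g * K),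
      N.M ≤ (B3.M g K).toNat ∧ N.Q ≤ 2 ^ (K + 1) ∧ N.W ≤ (B3.W g K).toNat) :
    ∀ g : ℕ, 1 ≤ g → ∃ A e : ℕ, ∀ K : ℕ, 1 ≤ K → ∃ N : RNB.GridNet (g * K),
      N.M ≤ A * K ^ e ∧ N.Q ≤ 2 ^ (K + 1) ∧ N.W ≤ A * K ^ e * 2 ^ K := by
  intro g hg
  refine h3_of (M_poly g) (W_poly g 1 0 0) fun K hK => ?_
  obtain ⟨N, h1, h2, h3⟩ := H g K hg hK
  exact ⟨N, h1.trans (B3_M g K).le, h2, h3.trans (B3_W g K).le⟩

end H88RNC
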